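import Pool.Agent.H6.FN.Targets
import Pool.Agent.H6.FC.Lem

/-!
# MP_7500ea_al, board fcn_modules, rows SQN TPI SNN
-/

open scoped Classical ComplexConjugate

namespace Pool.Agent.H45.FN

open FI AMc AMt

theorem pf_SQN (NSQ : T_NSQ) : T_SQN := by
  intro P Q hP G _ _ n N hSer M instM hM
  have hnor : ∀ i, ((N i).map (QuotientGroup.mk' M)).Normal := fun i =>
    (hSer.nor i).map _ (QuotientGroup.mk'_surjective M)
  refine ⟨n, fun i => (N i).map (QuotientGroup.mk' M), ⟨?_, hnor, ?_, ?_, ?_⟩⟩
  · change (N 0).map (QuotientGroup.mk' M) = ⊥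
    rw [hSer.bot, Subgroup.map_bot]
  · intro i
    exact Subgroup.map_mono (hSer.mono i)
  · intro i hi
    obtain ⟨R, instR, f, hf, hker, hR⟩ := hSer.fac i hi
    haveI := hnor i
    haveI hn2 : (((N i).map (QuotientGroup.mk' M)).subgroupOf
      ((N (i + 1)).map (QuotientGroup.mk' M))).Normal := Subgroup.normal_subgroupOf
    let R' := ((N (i + 1)).map (QuotientGroup.mk' M)) ⧸ (((N i).map (QuotientGroup.mk' M)).subgroupOf
      ((N (i + 1)).map (QuotientGroup.mk' M)))
    let p : ((N (i + 1)).map (QuotientGroup.mk' M)) →* R' := QuotientGroup.mk' _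
    have hp : Function.Surjective p := QuotientGroup.mk'_surjective _
    have hpk : ∀ x, p x = 1 ↔ (x : G ⧸ M) ∈ (N i).map (QuotientGroup.mk' M) := by
      intro x
      rw [← Subgroup.mem_subgroupOf]
      exact QuotientGroup.eq_one_iff x
    let g : N (i + 1) →* R' := p.comp ((QuotientGroup.mk' M).subgroupMap (N (i + 1)))
    have hg : Function.Surjective g := hp.comp (MonoidHom.subgroupMap_surjective _ _)
    have hfg : f.ker ≤ g.ker := by
      intro x hx
      rw [MonoidHom.mem_ker] at hx ⊢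
      have h1 : (x : G) ∈ N i := (hker x).1 hx
      exact (hpk _).2 ⟨(x : G), h1, rfl⟩
    let g' : R →* R' := f.liftOfSurjective hf ⟨g, hfg⟩
    have hg' : ∀ x, g' (f x) = g x := fun x =>
      MonoidHom.liftOfRightInverse_comp_apply f _ _ ⟨g, hfg⟩ x
    have hg's : Function.Surjective g' := by
      intro y
      obtain ⟨x, hx⟩ := hg y
      exact ⟨f x, (hg' x).trans hx⟩
    refine ⟨R', inferInstance, p, hp, hpk, ?_⟩
    rcases hR with hR | ⟨k, S, instS, finS, hPk, hR⟩
    · left
      haveI := hR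
      exact Group.isSolvable_of_surjective hg's
    · right
      obtain ⟨k', hk', hiso⟩ := (NSQ S (hP.nas k S hPk) k R hR).2 R' g' hg's
      exact ⟨k', S, instS, finS, hP.mon k k' S hk' hPk, hiso⟩
  · obtain ⟨Y, instY, f, hf, hker, htop⟩ := hSer.top
    let f' : G ⧸ M →* Y := QuotientGroup.lift M f (fun x hx => (hker x).2 (hM hx))
    have hf' : ∀ x : G, f' (QuotientGroup.mk x) = f x := fun x => rfl
    refine ⟨Y, instY, f', ?_, ?_, htop⟩
    · intro y
      obtain ⟨x, hx⟩ := hf y
      exact ⟨QuotientGroup.mk x, (hf' x).trans hx⟩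
    · intro q
      obtain ⟨x, rfl⟩ := QuotientGroup.mk_surjective q
      rw [hf', hker]
      constructor
      · intro h
        exact ⟨x, h, rfl⟩
      · rintro ⟨y, hy, hyx⟩
        have h1 : (QuotientGroup.mk y : G ⧸ M) = QuotientGroup.mk x := hyx
        rw [QuotientGroup.eq] at h1
        have h2 := (N n).mul_mem hy (hM h1)
        rwa [mul_inv_cancel_left] at h2

theorem pf_TPI : T_TPI := by
  intro Q Y Y' _ _ hiso hTop L' hL'
  obtain ⟨f⟩ := hiso
  have hfs : Function.Surjective (f : Y →* Y') := f.surjective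
  have hfi : Function.Injective (f : Y →* Y') := f.injective
  have hmin : MinN (L'.comap (f : Y →* Y')) := by
    refine ⟨hL'.nor.comap _, ?_, ?_⟩
    · intro h
      apply hL'.ne
      rw [← Subgroup.map_comap_eq_self_of_surjective hfs L', h, Subgroup.map_bot]
    · intro M hM hML
      have h1 : M.map (f : Y →* Y') ≤ L' := Subgroup.map_le_iff_le_comap.2 hML
      rcases hL'.min _ (hM.map _ hfs) h1 with h | h
      · left
        exact (Subgroup.map_eq_bot_iff_of_injective M hfi).1 h
      · right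
        rw [← h, Subgroup.comap_map_eq_self_of_injective hfi]
  obtain ⟨k, S, instS, finS, hQ, ⟨e⟩⟩ := hTop _ hmin
  refine ⟨k, S, instS, finS, hQ, ⟨?_⟩⟩
  have h2 : (L'.comap (f : Y →* Y')).map (f : Y →* Y') = L' :=
    Subgroup.map_comap_eq_self_of_surjective hfs L'
  exact ((MulEquiv.subgroupCongr h2).symm.trans (f.subgroupMap _).symm).trans e

theorem pf_SNN (NSQ : T_NSQ) (TPN : T_TPN) (_TPI : T_TPI) : T_SNN := by
  intro P Q hP hQ G _ _ H hH hSer
  obtain ⟨n, N, hN⟩ := hSer
  refine ⟨n, fun i => (N i).subgroupOf H, ⟨?_, ?_, ?_, ?_, ?_⟩⟩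
  · change (N 0).subgroupOf H = ⊥
    rw [hN.bot, Subgroup.bot_subgroupOf]
  · intro i
    haveI := hN.nor i
    exact Subgroup.normal_subgroupOf
  · intro i
    exact Subgroup.comap_mono (hN.mono i)
  · intro i hi
    obtain ⟨R, instR, f, hf, hker, hR⟩ := hN.fac i hi
    let f1 : ((N (i + 1)).subgroupOf H) →* R :=
      { toFun := fun x => f ⟨((x : H) : G), x.2⟩
        map_one' := by
          have : (⟨(((1 : (N (i + 1)).subgroupOf H) : H) : G), Subgroup.one_mem _⟩ : N (i + 1)) = 1 :=
            rfl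
          exact (congrArg f this).trans (map_one f)
        map_mul' := by
          intro a b
          rw [← map_mul]
          rfl }
    have hf1 : ∀ x, f1 x = f ⟨((x : H) : G), x.2⟩ := fun x => rfl
    have hnor : f1.range.Normal := by
      constructor
      rintro _ ⟨x, rfl⟩ q
      obtain ⟨y, rfl⟩ := hf q
      have hmem : (y : G) * ((x : H) : G) * (y : G)⁻¹ ∈ H := hH.conj_mem _ (x : H).2 _
      have hmem2 : (y : G) * ((x : H) : G) * (y : G)⁻¹ ∈ N (i + 1) :=
        (N (i + 1)).mul_mem ((N (i + 1)).mul_mem y.2 x.2) ((N (i + 1)).inv_mem y.2)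
      refine ⟨⟨⟨_, hmem⟩, hmem2⟩, ?_⟩
      rw [hf1, hf1, ← map_mul, ← map_inv, ← map_mul]
      rfl
    refine ⟨f1.range, inferInstance, f1.rangeRestrict, f1.rangeRestrict_surjective, ?_, ?_⟩
    · intro x
      have h1 : f1.rangeRestrict x = 1 ↔ f1 x = 1 := by
        rw [Subtype.ext_iff]
        rfl
      rw [h1, hf1, hker]
      rfl
    · rcases hR with hR | ⟨k, S, instS, finS, hPk, hR⟩
      · left
        haveI := hR
        infer_instance
      · right
        obtain ⟨k', hk', hiso⟩ := (NSQ S (hP.nas k S hPk) k R hR).1 f1.range f1.range.subtype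
          Subtype.val_injective (by rw [Subgroup.range_subtype]; exact hnor)
        exact ⟨k', S, instS, finS, hP.mon k k' S hk' hPk, hiso⟩
  · obtain ⟨Y, instY, f, hf, hker, htop⟩ := hN.top
    haveI : Finite Y := Finite.of_surjective f hf
    refine ⟨H.map f, inferInstance, f.subgroupMap H, MonoidHom.subgroupMap_surjective _ _, ?_,
      TPN Q hQ Y htop (H.map f) (hH.map f hf)⟩
    intro x
    have h1 : f.subgroupMap H x = 1 ↔ f (x : G) = 1 := by
      rw [Subtype.ext_iff]
      rfl
    rw [h1, hker]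
    rfl

end Pool.Agent.H45.FN
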