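import Pool.Agent.H6.FN.Targets
import Pool.Agent.H6.FC.Lem

/-!
# MP_7500ea_al, board fcn_modules, rows TPN TKQ
-/

open scoped Classical ComplexConjugate

namespace Pool.Agent.H45.FN

open FI AMc AMt

theorem nas_nc' {S : Type} [Group S] (hS : NAS S) : ∀ x : S, (∀ s, s * x = x * s) → x = 1 := by
  intro x hcon
  haveI := hS.sim
  have h1 : Subgroup.center S = ⊥ ∨ Subgroup.center S = ⊤ :=
    Subgroup.Normal.eq_bot_or_eq_top (inferInstance : (Subgroup.center S).Normal)
  rcases h1 with h1 | h1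
  · have h2 : x ∈ Subgroup.center S := Subgroup.mem_center_iff.2 (fun s => hcon s)
    rwa [h1, Subgroup.mem_bot] at h2
  · exfalso
    obtain ⟨a, b, hab⟩ := hS.nab
    have h2 : b ∈ Subgroup.center S := by rw [h1]; trivial
    exact hab (Subgroup.mem_center_iff.1 h2 a)

/-- the centre of `S ^ k` is trivial -/
theorem cen_pow {S : Type} [Group S] (hS : NAS S) {k : ℕ} {L : Type} [Group L]
    (e : L ≃* (Fin k → S)) (x : L) (h : ∀ l : L, l * x = x * l) : x = 1 := by
  apply e.injective
  rw [map_one]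
  funext i
  refine nas_nc' hS _ (fun s => ?_)
  have h1 := congrArg e (h (e.symm (Pi.mulSingle i s)))
  rw [map_mul, map_mul, MulEquiv.apply_symm_apply] at h1
  have h2 := congrFun h1 i
  simpa using h2

theorem exists_min {Y : Type} [Group Y] [Finite Y] (U : Subgroup Y) (hU : U ≠ ⊥)
    (hn : U.Normal) : ∃ L : Subgroup Y, MinN L ∧ L ≤ U := by
  obtain ⟨L, ⟨hL1, hL2, hL3⟩, hmin⟩ := (wellFounded_lt (α := Subgroup Y)).has_min
    {L : Subgroup Y | L.Normal ∧ L ≠ ⊥ ∧ L ≤ U} ⟨U, hn, hU, le_rfl⟩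
  refine ⟨L, ⟨hL1, hL2, fun M hM hML => ?_⟩, hL3⟩
  by_cases hM0 : M = ⊥
  · exact Or.inl hM0
  · right
    by_contra hne
    exact hmin M ⟨hM, hM0, hML.trans hL3⟩ (lt_of_le_of_ne hML hne)

theorem pf_TPN (NSQ : T_NSQ) : T_TPN := by
  intro Q hQ Y _ _ hTop H hH M hM
  obtain ⟨hMn, hM0, hMmin⟩ := hM
  let U : Subgroup Y := Subgroup.normalClosure ((M.map H.subtype : Subgroup Y) : Set Y)
  have hM1U : M.map H.subtype ≤ U := Subgroup.subset_normalClosure
  have hUH : U ≤ H := by
    haveI := hH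
    apply Subgroup.normalClosure_le_normal
    rintro _ ⟨x, _, rfl⟩
    exact x.2
  have hU0 : U ≠ ⊥ := by
    intro h
    rw [h, le_bot_iff, Subgroup.map_eq_bot_iff_of_injective M Subtype.val_injective] at hM1U
    exact hM0 hM1U
  obtain ⟨L, hL, hLU⟩ := exists_min U hU0 Subgroup.normalClosure_normal
  obtain ⟨k, S, instS, finS, hQS, ⟨e⟩⟩ := hTop L hL
  have hS := hQ S hQS
  have hLH : L ≤ H := hLU.trans hUH
  haveI := hL.nor
  haveI := hMn
  haveI hLHn : (L.subgroupOf H).Normal := Subgroup.normal_subgroupOf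
  have hDn : (L.subgroupOf H ⊓ M).Normal := inferInstance
  rcases hMmin _ hDn inf_le_right with hD | hD
  · exfalso
    -- `L` and `M` commute
    have hcom : ∀ l ∈ L, ∀ m : H, m ∈ M → (m : Y) * l = l * m := by
      intro l hl m hm
      let l' : H := ⟨l, hLH hl⟩
      have h1 : l' * m * l'⁻¹ * m⁻¹ ∈ L.subgroupOf H ⊓ M := by
        constructor
        · change (l * m * l⁻¹ * (m : Y)⁻¹) ∈ L
          have h2 : l * m * l⁻¹ * (m : Y)⁻¹ = l * ((m : Y) * l⁻¹ * (m : Y)⁻¹) := by group
          rw [h2]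
          exact L.mul_mem hl (hL.nor.conj_mem _ (L.inv_mem hl) _)
        · exact M.mul_mem (hMn.conj_mem m hm l') (M.inv_mem hm)
      rw [hD, Subgroup.mem_bot] at h1
      have h2 : l * m * l⁻¹ * (m : Y)⁻¹ = 1 := congrArg Subtype.val h1
      rw [mul_inv_eq_one, mul_inv_eq_iff_eq_mul] at h2
      exact h2.symm
    have hUc : U ≤ Subgroup.centralizer (L : Set Y) := by
      apply Subgroup.normalClosure_le_normal
      rintro _ ⟨m, hm, rfl⟩
      change (m : Y) ∈ Subgroup.centralizer (L : Set Y)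
      rw [Subgroup.mem_centralizer_iff]
      intro l hl
      exact (hcom l hl m hm).symm
    apply hL.ne
    rw [Subgroup.eq_bot_iff_forall]
    intro x hx
    have h3 : (⟨x, hx⟩ : L) = 1 := by
      apply cen_pow hS e
      intro l
      have h4 := Subgroup.mem_centralizer_iff.1 (hUc (hLU hx)) (l : Y) l.2
      exact Subtype.ext h4
    exact congrArg Subtype.val h3
  · have hML : ∀ m : H, m ∈ M → (m : Y) ∈ L := by
      intro m hm
      rw [← hD] at hm
      exact hm.1
    let j : M →* L :=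
      { toFun := fun m => ⟨((m : H) : Y), hML m m.2⟩
        map_one' := rfl
        map_mul' := fun a b => rfl }
    have hj : ∀ m, ((j m : L) : Y) = ((m : H) : Y) := fun m => rfl
    have hji : Function.Injective j := by
      intro a b hab
      have h1 := congrArg (Subtype.val) hab
      rw [hj, hj] at h1
      exact Subtype.ext (Subtype.ext h1)
    have hjn : j.range.Normal := by
      constructor
      rintro _ ⟨m, rfl⟩ l
      let l' : H := ⟨l, hLH l.2⟩
      refine ⟨⟨l' * (m : H) * l'⁻¹, hMn.conj_mem _ m.2 l'⟩, ?_⟩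
      apply Subtype.ext
      rfl
    obtain ⟨k', hk', hiso⟩ := (NSQ S hS k L ⟨e⟩).1 M j hji hjn
    exact ⟨k', S, instS, finS, hQS, hiso⟩

theorem pf_TKQ (TKF : T_TKF) : T_TKQ := by
  intro e he Y _ _ L hL k S _ _ hFew hiso
  obtain ⟨φ⟩ := hiso
  have hS : NAS S := ⟨hFew.sim, hFew.nab⟩
  let C : Subgroup Y := Subgroup.centralizer (L : Set Y)
  have hLC : ∀ x ∈ L, x ∈ C → x = 1 := by
    intro x hx hxC
    have h3 : (⟨x, hx⟩ : L) = 1 := by
      apply cen_pow hS φ
      intro l
      have h4 := Subgroup.mem_centralizer_iff.1 hxC (l : Y) l.2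
      exact Subtype.ext h4
    exact congrArg Subtype.val h3
  let p : L →* L.map (QuotientGroup.mk' C) := (QuotientGroup.mk' C).subgroupMap L
  have hp : Function.Bijective p := by
    refine ⟨?_, MonoidHom.subgroupMap_surjective _ _⟩
    rw [injective_iff_map_eq_one]
    intro x hx
    have h1 : (QuotientGroup.mk (x : Y) : Y ⧸ C) = 1 := congrArg Subtype.val hx
    rw [QuotientGroup.eq_one_iff] at h1
    exact Subtype.ext (hLC x x.2 h1)
  have h1 := TKF e he (Y ⧸ C) (L.map (QuotientGroup.mk' C))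
    (hL.map _ (QuotientGroup.mk'_surjective C)) k S hFew
    ⟨(MulEquiv.ofBijective p hp).symm.trans φ⟩ (by
      intro y hy
      obtain ⟨y, rfl⟩ := QuotientGroup.mk_surjective y
      rw [QuotientGroup.eq_one_iff]
      change y ∈ Subgroup.centralizer (L : Set Y)
      rw [Subgroup.mem_centralizer_iff]
      intro l hl
      have h2 := hy (QuotientGroup.mk l) ⟨l, hl, rfl⟩
      have h3 : (QuotientGroup.mk (y * l) : Y ⧸ C) = QuotientGroup.mk (l * y) := h2
      rw [QuotientGroup.eq] at h3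
      have h4 : (y * l)⁻¹ * (l * y) ∈ L := by
        have h5 : (y * l)⁻¹ * (l * y) = l⁻¹ * (y⁻¹ * l * y) := by group
        rw [h5]
        refine L.mul_mem (L.inv_mem hl) ?_
        have h6 := hL.conj_mem l hl y⁻¹
        rwa [inv_inv] at h6
      have h5 := hLC _ h4 h3
      rw [inv_mul_eq_one] at h5
      exact h5.symm)
  exact h1

end Pool.Agent.H45.FN
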